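import Pool.Agent.Lib.helper3.MC

namespace Pool.Agent.H.MP_8df5c2_pr

open MeasureTheory ProbabilityTheory Filter Topology Finset Classical
open scoped ENNReal

section
variable {Z : Type} [AddCommGroup Z] [Countable Z] [MeasurableSpace Z] [DiscreteMeasurableSpace Z]
  (ν : Measure Z) [IsProbabilityMeasure ν]

noncomputable abbrev P : Measure (ℕ → Z) := Measure.infinitePi fun _ => ν

def X (n : ℕ) (ω : ℕ → Z) : Z := ∑ i ∈ range n, ω i

lemma X_meas (n : ℕ) : Measurable (X n : (ℕ → Z) → Z) :=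
  Finset.measurable_sum _ fun i _ => measurable_pi_apply i

noncomputable def g (x : Z) : ℝ≥0∞ := ∑' n, P ν {ω | X n ω = x}

lemma step (t : ℕ) (A : Set (ℕ → Z)) (hA : MeasurableSet A)
    (h : ∀ ω ω', (∀ i < t, ω i = ω' i) → (ω ∈ A ↔ ω' ∈ A)) (φ : Z → ℝ≥0∞) :
    ∫⁻ ω in A, φ (X (t + 1) ω) ∂P ν = ∫⁻ ω in A, ∫⁻ u, φ (X t ω + u) ∂ν ∂P ν := by
  have := Lib.helper3.MC.indep_past ν t (fun ω => (ω ∈ A, X t ω))
    (hA.mem.prodMk (X_meas t)) (fun ω ω' e => Prod.ext (propext (h ω ω' e))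
      (sum_congr rfl fun i hi => e i (mem_range.mp hi)))
    (fun q => if q.1.1 then φ (q.1.2 + q.2) else 0) (.of_discrete)
  rw [← lintegral_indicator hA, ← lintegral_indicator hA]
  refine (lintegral_congr fun ω => ?_).trans (this.trans (lintegral_congr fun ω => ?_))
  · simp [Set.indicator, X, sum_range_succ]
  · by_cases e : ω ∈ A <;> simp [e]

lemma hit {φ : Z → ℝ≥0∞} (h : ∀ x, ∫⁻ u, φ (x + u) ∂ν ≤ φ x) {b : Set Z} {m : ℝ≥0∞}
    (hm : ∀ x ∈ b, m ≤ φ x) : m * P ν {ω | ∃ n, X n ω ∈ b} ≤ φ 0 := by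
  let A : ℕ → Set (ℕ → Z) := fun t => {ω | ∃ n < t, X n ω ∈ b}
  have mb : ∀ t, MeasurableSet (X t ⁻¹' b : Set (ℕ → Z)) := fun t => X_meas t .of_discrete
  have mA : ∀ t, MeasurableSet (A t) := fun t =>
    measurableSet_setOfPred.mpr (.exists fun n => .and measurable_const (mb n).mem)
  have k : ∀ t, m * P ν (A t) + ∫⁻ ω in (A t)ᶜ, φ (X t ω) ∂P ν ≤ φ 0 := fun t => by
    induction t with
    | zero => simp [A, X]
    | succ t ih =>
      have e1 : A (t + 1) = A t ∪ (A t)ᶜ ∩ X t ⁻¹' b := by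
        ext ω; simp only [A, Set.mem_ofPred_eq, Nat.lt_succ_iff_lt_or_eq, Set.mem_union,
          Set.mem_inter_iff, Set.mem_compl_iff, Set.mem_preimage]; grind
      have e2 : (A (t + 1))ᶜ = (A t)ᶜ \ X t ⁻¹' b := by rw [e1]; ext ω; simp; tauto
      rw [step ν t _ (mA _).compl fun ω ω' e => not_congr (exists_congr fun n => and_congr_right
        fun hn => by rw [show X n ω = X n ω' from sum_congr rfl fun i hi =>
          e i (by have := mem_range.mp hi; omega)])]
      refine le_trans ?_ ih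
      rw [← lintegral_inter_add_sdiff _ (A t)ᶜ (mb t), ← add_assoc, e2]
      refine add_le_add ?_ (lintegral_mono fun ω => h _)
      rw [e1]
      refine (mul_le_mul_right (measure_union_le _ _) _).trans ?_
      rw [mul_add]
      refine add_le_add_right ?_ _
      rw [← setLIntegral_const]
      exact setLIntegral_mono' ((mA t).compl.inter (mb t)) fun ω e => hm _ e.2
  have e : {ω | ∃ n, X n ω ∈ b} = ⋃ t, A t := by
    ext ω; simp only [A, Set.mem_ofPred_eq, Set.mem_iUnion]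
    exact ⟨fun ⟨n, h⟩ => ⟨n + 1, n, by omega, h⟩, fun ⟨_, n, _, h⟩ => ⟨n, h⟩⟩
  have mo : Monotone A := fun s t hst ω ⟨n, h1, h2⟩ => ⟨n, by omega, h2⟩
  rw [e, mo.measure_iUnion, ENNReal.mul_iSup]
  exact iSup_le fun t => le_self_add.trans (k t)

lemma sup (y x : Z) : ∫⁻ u, g ν (y - (x + u)) ∂ν ≤ g ν (y - x) := by
  have k : ∀ n, ∫⁻ u, P ν {ω | X n ω = y - (x + u)} ∂ν = P ν {ω | X (n + 1) ω = y - x} := fun n => by
    have a : ∀ n z, P ν {ω | X n ω = z} = ∫⁻ ω, if X n ω = z then 1 else 0 ∂P ν := fun n z => by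
      refine (lintegral_indicator_one (X_meas n (measurableSet_singleton z))).symm.trans
        (lintegral_congr fun ω => by simp [Set.indicator])
    have := step ν n .univ .univ (by simp) fun z => if z = y - x then 1 else 0
    simp only [Measure.restrict_univ] at this
    rw [a, this, lintegral_lintegral_swap (Measurable.aemeasurable (by
      exact (measurable_of_countable fun z => if z = y - x then (1 : ℝ≥0∞) else 0).comp
        (((X_meas n).comp measurable_fst).add measurable_snd)))]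
    refine lintegral_congr fun u => (a _ _).trans (lintegral_congr fun ω => if_congr ?_ rfl rfl)
    rw [← sub_sub, eq_sub_iff_add_eq]
  unfold g
  rw [lintegral_tsum fun n => Measurable.aemeasurable .of_discrete, tsum_congr k]
  exact ENNReal.tsum_comp_le_tsum_of_injective (add_left_injective 1)
    fun n => P ν {ω | X n ω = y - x}

lemma g_zero : 1 ≤ g ν 0 := le_trans (by simp [X]) (ENNReal.le_tsum 0)

lemma hitF (b : Finset Z) {m : ℝ≥0∞} (hm : ∀ x ∈ b, m ≤ ∑ z ∈ b, g ν (z - x)) :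
    m * P ν {ω | ∃ n, X n ω ∈ b} ≤ ∑ z ∈ b, g ν z := by
  simpa using hit ν (φ := fun x => ∑ z ∈ b, g ν (z - x)) (b := b) (fun x => by
    rw [lintegral_finsetSum _ fun _ _ => .of_discrete]
    exact sum_le_sum fun z _ => sup ν z x) hm

lemma multi {N : ℕ} (C : Z → Finset Z) (β : Z → Z) (hβ : ∀ z b, z ∈ C b ↔ β z = b) {m : ℝ≥0∞}
    (hm : ∀ b, ∀ x ∈ C b, m ≤ ∑ z ∈ C b, g ν (z - x)) (Q S : Set Z) [∀ z, Decidable (z ∈ S)]
    (hS : ∀ y z : Fin N → Z, (∀ j, β (z j) = β (y j)) → ∑ j, y j ∈ Q → ∑ j, z j ∈ S) :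
    m ^ N * Measure.pi (fun _ : Fin N => P ν) {ω | ∃ n : Fin N → ℕ, ∑ j, X (n j) (ω j) ∈ Q} ≤
      ∑' z : Fin N → Z, if ∑ j, z j ∈ S then ∏ j, g ν (z j) else 0 := by
  let T : Set (Fin N → Z) := {b | ∃ y : Fin N → Z, (∀ j, β (y j) = b j) ∧ ∑ j, y j ∈ Q}
  have e : {ω : Fin N → ℕ → Z | ∃ n : Fin N → ℕ, ∑ j, X (n j) (ω j) ∈ Q} ⊆
      ⋃ b : T, Set.univ.pi fun j => {ω | ∃ n, X n ω ∈ C (b.1 j)} := fun ω ⟨n, hn⟩ =>
    Set.mem_iUnion.mpr ⟨⟨fun j => β (X (n j) (ω j)), _, fun _ => rfl, hn⟩,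
      fun j _ => ⟨n j, (hβ _ _).mpr rfl⟩⟩
  refine (mul_le_mul_right ((measure_mono e).trans (measure_iUnion_le _)) _).trans ?_
  rw [← ENNReal.tsum_mul_left, ← ENNReal.tsum_fiberwise (fun z : Fin N → Z =>
    if ∑ j, z j ∈ S then ∏ j, g ν (z j) else 0) fun z j => β (z j)]
  refine le_trans (ENNReal.tsum_le_tsum fun b => ?_)
    (ENNReal.tsum_comp_le_tsum_of_injective Subtype.val_injective _)
  have a : m ^ N = ∏ _j : Fin N, m := by simp
  rw [Measure.pi_pi, a, ← prod_mul_distrib]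
  refine (prod_le_prod' fun j _ => hitF ν _ (hm _)).trans ?_
  rw [prod_univ_sum, show (fun (z : Fin N → Z) j => β (z j)) ⁻¹' {b.1} = ↑(Fintype.piFinset fun j => C (b.1 j)) by
    ext z; simp [hβ, funext_iff], Finset.tsum_subtype' _
      fun z : Fin N → Z => if ∑ j, z j ∈ S then ∏ j, g ν (z j) else 0]
  refine sum_le_sum fun z hz => ?_
  obtain ⟨y, h1, h2⟩ := b.2
  rw [if_pos (hS y z (fun j => by rw [h1, ← hβ]; exact Fintype.mem_piFinset.mp hz j) h2)]
end

noncomputable def e (x : ℝ) : ℝ≥0∞ := 2 ^ x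

lemma e_add (x y : ℝ) : e (x + y) = e x * e y := ENNReal.rpow_add _ _ (by simp) (by simp)

lemma e_mono {x y : ℝ} (h : x ≤ y) : e x ≤ e y := ENNReal.rpow_le_rpow_of_exponent_le (by simp) h

lemma e_pow (x : ℝ) (n : ℕ) : e x ^ n = e (x * n) := by
  unfold e; rw [ENNReal.rpow_mul, ENNReal.rpow_natCast]

lemma e_nat (n : ℕ) : e n = (2 ^ n : ℕ) := by simp [e]

lemma e_zero : e 0 = 1 := by simp [e]

lemma e_eq (x : ℝ) : e x = .ofReal (2 ^ x) := by
  rw [← ENNReal.ofReal_rpow_of_pos two_pos]; simp [e]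

lemma e_big {a : ℝ≥0∞} (h : a ≠ ∞) : ∃ c : ℝ, 0 ≤ c ∧ a ≤ e c := by
  obtain ⟨n, hn⟩ := ENNReal.exists_nat_gt h
  exact ⟨n, n.cast_nonneg, hn.le.trans (by rw [e_nat]; exact_mod_cast n.lt_two_pow_self.le)⟩

lemma e_geo {a : ℝ} (h : 0 < a) : ∃ c : ℝ, 0 ≤ c ∧ ∑' n : ℕ, e (-a * n) ≤ e c := by
  refine e_big ?_
  simp only [← e_pow, ENNReal.tsum_geometric]
  exact ENNReal.inv_ne_top.mpr (tsub_pos_of_lt
    (ENNReal.rpow_lt_one_of_one_lt_of_neg (by simp) (by linarith))).ne'

variable {d : ℕ}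

noncomputable def ball (d s : ℕ) : Finset (Fin d → ℤ) := Fintype.piFinset fun _ => Ioo (-2 ^ s) (2 ^ s)

lemma mem_ball {s : ℕ} {x : Fin d → ℤ} : x ∈ ball d s ↔ ∀ i, |x i| < 2 ^ s := by
  simp [ball, abs_lt]

lemma ball_mono {s t : ℕ} (h : s ≤ t) : ball d s ⊆ ball d t := fun x hx =>
  mem_ball.mpr fun i => (mem_ball.mp hx i).trans_le (pow_le_pow_right₀ one_le_two h)

lemma card_ball (s : ℕ) : (#(ball d s) : ℝ≥0∞) ≤ e ((s + 1) * d) := by
  have : #(ball d s) ≤ 2 ^ ((s + 1) * d) := by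
    simp only [ball, Fintype.card_piFinset, prod_const, card_univ, Fintype.card_fin, pow_mul,
      Int.card_Ioo]
    refine Nat.pow_le_pow_left (Int.toNat_le.mpr ?_) _
    push_cast; rw [pow_succ]; omega
  exact (Nat.cast_le.mpr this).trans_eq (by rw [← e_nat]; push_cast; rfl)

lemma ex_ball (x : Fin d → ℤ) : ∃ s, x ∈ ball d s :=
  ⟨∑ i, (x i).natAbs, mem_ball.mpr fun i => by
    rw [← Int.natCast_natAbs]
    exact_mod_cast (single_le_sum (f := fun i => (x i).natAbs) (fun _ _ => Nat.zero_le _)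
      (mem_univ i)).trans_lt Nat.lt_two_pow_self⟩

noncomputable def lv (x : Fin d → ℤ) : ℕ := Nat.find (ex_ball x)

lemma lv_le {x : Fin d → ℤ} {s : ℕ} : lv x ≤ s ↔ x ∈ ball d s :=
  ⟨fun h => ball_mono h (Nat.find_spec (ex_ball x)), fun h => Nat.find_min' _ h⟩

variable {f : (Fin d → ℤ) → ℝ≥0∞} {α c : ℝ}

lemma mass (hα : 0 < α) (h : ∀ x, f x ≤ e (c + (α - d) * lv x)) :
    ∃ C : ℝ, 0 ≤ C ∧ ∀ s, ∑ x ∈ ball d s, f x ≤ e (C + α * s) := by
  obtain ⟨C, h0, hC⟩ := e_geo hα
  refine ⟨|c| + d + C, by positivity, fun s => ?_⟩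
  rw [← sum_fiberwise_of_maps_to (t := range (s + 1)) (g := lv)
    fun x hx => mem_range.mpr (Nat.lt_succ_of_le (lv_le.mpr hx)), ← sum_range_reflect]
  calc _ ≤ ∑ i ∈ range (s + 1), e (|c| + d + α * s) * e (-α * i) := by
        refine sum_le_sum fun i hi => (sum_le_card_nsmul _ _ (e (c + (α - d) * (s - i : ℕ)))
          fun x hx => (h x).trans_eq (by rw [(mem_filter.mp hx).2]; rfl)).trans ?_
        rw [nsmul_eq_mul, ← e_add]
        refine (mul_le_mul_left ((Nat.cast_le.mpr (card_le_card (t := ball d (s - i)) fun x hx =>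
          lv_le.mp (mem_filter.mp hx).2.le)).trans (card_ball _)) _).trans ?_
        rw [← e_add, Nat.cast_sub (Nat.le_of_lt_succ (mem_range.mp hi))]
        exact e_mono (by nlinarith [le_abs_self c])
    _ ≤ _ := by
        rw [← mul_sum, show |c| + d + C + α * s = |c| + d + α * s + C by ring, e_add _ C]
        exact mul_le_mul_right ((ENNReal.sum_le_tsum _).trans hC) _

lemma conv (hα : 0 < α) (h : ∀ x, f x ≤ e (c + (α - d) * lv x)) {N : ℕ} (h0 : 0 < N)
    (hN : α * N < d) : ∃ C : ℝ, ∀ (S : Finset (Fin d → ℤ)) (k : ℕ), (∀ x ∈ S, x ∉ ball d (k + N)) →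
    (∑' z : Fin N → Fin d → ℤ, if ∑ j, z j ∈ (S : Set _) then ∏ j, f (z j) else 0) ≤
      #S * e (C + (α * N - d) * k) := by
  obtain ⟨C, h1, hC⟩ := mass hα h
  obtain ⟨D, -, hD⟩ := e_geo (sub_pos.mpr hN)
  refine ⟨N + c + C * N + D, fun S k hS => ?_⟩
  let T : ℕ → Fin N → Finset (Fin N → Fin d → ℤ) := fun s j =>
    {z ∈ Fintype.piFinset fun _ => ball d s | lv (z j) = s ∧ ∑ j, z j ∈ S}
  have a : ∀ s j, ∑ z ∈ T s j, ∏ j, f (z j) ≤ #S * e (c + C * N + (α * N - d) * s) := fun s j => by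
    let F : Fin N → (Fin d → ℤ) → ℝ≥0∞ := fun i y => if i = j then e (α * s) else f y
    let t : Fin N → Finset (Fin d → ℤ) := fun i => if i = j then {0} else ball d s
    calc _ ≤ ∑ z ∈ T s j, e (c - d * s) * ∏ i, F i (Function.update z j 0 i) := by
          refine sum_le_sum fun z hz => ?_
          rw [← mul_prod_erase _ _ (mem_univ j), ← mul_prod_erase _ _ (mem_univ j), ← mul_assoc]
          refine mul_le_mul' ((h _).trans ?_) (le_of_eq (prod_congr rfl fun i hi => ?_))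
          · simp only [F, if_true]
            rw [← e_add, (mem_filter.mp hz).2.1]; exact e_mono (by linarith)
          · simp [F, ne_of_mem_erase hi]
      _ ≤ e (c - d * s) * ∑ q ∈ S ×ˢ Fintype.piFinset t, ∏ i, F i (q.2 i) := by
          rw [← mul_sum, ← sum_image (g := fun z : Fin N → Fin d → ℤ => (∑ j, z j, Function.update z j 0))
            (f := fun q => ∏ i, F i (q.2 i))]
          · gcongr
            intro q hq
            obtain ⟨z, hz, rfl⟩ := mem_image.mp hq
            obtain ⟨b1, -, b2⟩ := mem_filter.mp hz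
            refine mem_product.mpr ⟨b2, Fintype.mem_piFinset.mpr fun i => ?_⟩
            by_cases e : i = j <;> simp [t, e, Fintype.mem_piFinset.mp b1 i]
          · intro z _ y _ e
            obtain ⟨e1, e2⟩ := Prod.ext_iff.mp e
            have o : ∀ i, i ≠ j → z i = y i := fun i hi => by simpa [hi] using congrFun e2 i
            simp only [← add_sum_erase _ _ (mem_univ j)] at e1
            rw [sum_congr rfl fun i hi => o i (ne_of_mem_erase hi), add_left_inj] at e1
            exact funext fun i => if hi : i = j then hi ▸ e1 else o i hi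
      _ ≤ _ := by
          rw [sum_product]
          dsimp only
          rw [sum_const, ← prod_univ_sum, nsmul_eq_mul, mul_left_comm]
          refine mul_le_mul_right ((mul_le_mul_right (prod_le_pow_card _ _ (e (C + α * s))
            fun i _ => ?_) _).trans_eq ?_) _
          · by_cases e : i = j <;> simp only [F, t, e, if_true, if_false, sum_singleton]
            exacts [e_mono (by linarith), hC s]
          · rw [e_pow, ← e_add, card_univ, Fintype.card_fin]; congr 1; ring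
  calc _ ≤ ∑' z, ∑' s, ∑ j, if z ∈ T (k + s) j then ∏ j, f (z j) else 0 := by
        refine ENNReal.tsum_le_tsum fun z => ?_
        split_ifs with hz
        · obtain ⟨j, -, hj⟩ := exists_max_image univ (fun j => lv (z j)) ⟨⟨0, h0⟩, mem_univ _⟩
          have b : ∀ i, z i ∈ ball d (lv (z j)) := fun i => lv_le.mp (hj i (mem_univ _))
          have : k ≤ lv (z j) := by
            by_contra! l
            refine hS _ hz (mem_ball.mpr fun x => ?_)
            rw [Finset.sum_apply]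
            refine ((abs_sum_le_sum_abs _ _).trans (sum_le_card_nsmul _ _ (2 ^ k)
              fun i _ => (mem_ball.mp (ball_mono l.le (b i)) x).le)).trans_lt ?_
            rw [pow_add, mul_comm, nsmul_eq_mul, card_univ, Fintype.card_fin]
            gcongr
            exact_mod_cast Nat.lt_two_pow_self
          refine le_trans ?_ (ENNReal.le_tsum (lv (z j) - k))
          refine le_trans ?_ (single_le_sum (fun _ _ => zero_le) (mem_univ j))
          rw [Nat.add_sub_cancel' this, if_pos (mem_filter.mpr ⟨Fintype.mem_piFinset.mpr b, rfl, hz⟩)]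
        · exact zero_le
    _ ≤ ∑' s : ℕ, #S * e (N + c + C * N + (α * N - d) * k) * e (-(d - α * N) * s) := by
        rw [ENNReal.tsum_comm]
        refine ENNReal.tsum_le_tsum fun s => ?_
        rw [Summable.tsum_finsetSum fun _ _ => ENNReal.summable]
        refine (sum_le_card_nsmul _ _ (#S * e (c + C * N + (α * N - d) * (k + s : ℕ)))
          fun j _ => ?_).trans ?_
        · rw [tsum_eq_sum (s := T (k + s) j) fun z hz => if_neg hz, sum_ite_of_true fun _ h => h]
          exact a _ j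
        · rw [nsmul_eq_mul, card_univ, Fintype.card_fin, mul_left_comm, mul_assoc, ← e_add]
          refine mul_le_mul_right ((mul_le_mul_left (show (N : ℝ≥0∞) ≤ e N by
            rw [e_nat]; exact_mod_cast Nat.lt_two_pow_self.le) _).trans_eq ?_) _
          rw [← e_add]; congr 1; push_cast; ring
    _ ≤ _ := by
        rw [ENNReal.tsum_mul_left, mul_assoc]
        refine mul_le_mul_right ((mul_le_mul_right hD _).trans_eq ?_) _
        rw [← e_add]; congr 1; ring

noncomputable def cube (l : ℕ) (a : Fin d → ℤ) : Finset (Fin d → ℤ) :=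
  Fintype.piFinset fun i => Ico (a i * 2 ^ l) ((a i + 1) * 2 ^ l)

lemma mem_cube {l : ℕ} {a z : Fin d → ℤ} :
    z ∈ cube l a ↔ ∀ i, a i * 2 ^ l ≤ z i ∧ z i < (a i + 1) * 2 ^ l := by simp [cube]

lemma cube_iff (l : ℕ) (z a : Fin d → ℤ) : z ∈ cube l a ↔ (fun i => z i / 2 ^ l) = a := by
  rw [mem_cube, funext_iff]
  refine forall_congr' fun i => ?_
  rw [← Int.le_ediv_iff_mul_le (by positivity), ← Int.ediv_lt_iff_lt_mul (by positivity)]
  omega

lemma cube_sub {l : ℕ} {a x y : Fin d → ℤ} (hx : x ∈ cube l a) (hy : y ∈ cube l a) :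
    x - y ∈ ball d l := mem_ball.mpr fun i => by
  have := mem_cube.mp hx i
  have := mem_cube.mp hy i
  rw [Pi.sub_apply, abs_lt]; constructor <;> linarith

lemma hitQ (ν : Measure (Fin d → ℤ)) [IsProbabilityMeasure ν] (hα : 0 < α)
    (h : ∀ x, g ν x ≤ e (c + (α - d) * lv x))
    (h' : ∀ l, ∀ x ∈ ball d l, e (-c + (α - d) * l) ≤ g ν x) {N : ℕ} (h0 : 0 < N) (hN : α * N < d) :
    ∃ C : ℝ, ∀ γ : ℝ, 0 < γ → γ ≤ d - α * N → ∀ (k l : ℕ) (a x : Fin d → ℤ), x ∈ cube l a →
      x ∉ ball d k → Measure.pi (fun _ : Fin N => P ν)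
        {ω | ∃ n : Fin N → ℕ, ∑ j, X (n j) (ω j) ∈ cube l a} ≤ e C * e (γ * (l - k)) := by
  obtain ⟨C, hC⟩ := conv hα h h0 hN
  refine ⟨|C + c * N + d * (N + 2)| + 2 * ((d - α * N) * (2 * N + 2)), fun γ g0 g1 k l a x hx hk => ?_⟩
  rw [← e_add]
  have n0 : (0 : ℝ) ≤ N := N.cast_nonneg
  have p0 := mul_nonneg (sub_pos.mpr hN).le (by positivity : (0 : ℝ) ≤ 2 * N + 2)
  rcases le_or_gt k (l + 2 * N + 2) with hl | hl
  · refine prob_le_one.trans (e_zero.symm.trans_le (e_mono ?_))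
    have : (k : ℝ) ≤ l + 2 * N + 2 := by exact_mod_cast hl
    nlinarith [abs_nonneg (C + c * N + d * (N + 2))]
  obtain ⟨k, rfl⟩ : ∃ j, k = j + N + 1 := ⟨k - N - 1, by omega⟩
  let S := (ball d (l + N + 1)).image (x + ·)
  have m := multi ν (N := N) (cube l) _ (cube_iff l) (m := e (-c + α * l)) (fun b y hy => by
    refine le_trans (le_of_eq ?_) (card_nsmul_le_sum _ _ _ fun z hz => h' l _ (cube_sub hz hy))
    have : #(cube l b) = 2 ^ (l * d) := by
      simp only [cube, Fintype.card_piFinset, Int.card_Ico, add_mul, one_mul, add_sub_cancel_left,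
        prod_const, card_univ, Fintype.card_fin, pow_mul]
      rfl
    rw [nsmul_eq_mul, this, ← e_nat, ← e_add]; congr 1; push_cast; ring) (cube l a) S
    fun y z h1 h2 => by
      refine mem_image.mpr ⟨∑ j, z j - x, mem_ball.mpr fun i => ?_, by simp⟩
      have a1 := mem_ball.mp (cube_sub h2 hx) i
      have a2 : |∑ j, (z j - y j) i| ≤ _ := (abs_sum_le_sum_abs _ _).trans (sum_le_card_nsmul _ _
        (2 ^ l) fun j _ => (mem_ball.mp (cube_sub ((cube_iff l _ _).mpr (h1 j))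
          ((cube_iff l _ _).mpr rfl)) i).le)
      have a3 : (N : ℤ) < 2 ^ N := by exact_mod_cast Nat.lt_two_pow_self
      simp only [Pi.sub_apply, Finset.sum_apply, sum_sub_distrib, card_univ, Fintype.card_fin,
        nsmul_eq_mul, abs_lt, abs_le, pow_succ, pow_add] at *
      have : (0 : ℤ) < 2 ^ l := by positivity
      constructor <;> nlinarith
  have b := hC S k fun z hz h1 => hk (mem_ball.mpr fun i => by
    obtain ⟨w, hw, rfl⟩ := mem_image.mp hz
    have a1 := mem_ball.mp h1 i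
    have a2 := mem_ball.mp (ball_mono (show l + N + 1 ≤ k + N by omega) hw) i
    simp only [Pi.add_apply, abs_lt, pow_succ] at *
    constructor <;> linarith)
  have s : (#S : ℝ≥0∞) ≤ _ := (Nat.cast_le.mpr card_image_le).trans (card_ball _)
  have t := mul_le_mul_right (m.trans (b.trans (mul_le_mul_left s _))) (e (-((-c + α * l) * N)))
  rw [e_pow, ← mul_assoc, ← e_add, neg_add_cancel, e_zero, one_mul, ← e_add, ← e_add] at t
  refine t.trans (e_mono ?_)
  have : (l : ℝ) ≤ k := by exact_mod_cast (by omega : l ≤ k)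
  push_cast
  nlinarith [le_abs_self (C + c * N + d * (N + 2)), mul_le_mul_of_nonneg_right g1 (sub_nonneg.mpr this),
    mul_le_mul_of_nonneg_right g1 n0]

end Pool.Agent.H.MP_8df5c2_pr
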